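import Mathlib
import Pool.Agent.X78.APNegative
import Pool.Agent.X78.ProdExpand

/-!
# Beating random colourings for monochromatic `k`-term progressions, for all `k ≥ 3`, `r ≥ 2`
-/

namespace Pool.Agent.Results.MP_6bff71_co.BeatRandom

open Finset Pool.Agent.X78.APBlocks Pool.Agent.X78.APNegative Pool.Agent.X78.ProdExpand

/-- `S` is a `k`-term arithmetic progression `{a, a + d, …, a + (k-1) d}` contained in
`{1, …, n}`, with `a ≥ 1` and `d ≥ 1`. -/
def IsAP (k n : ℕ) (S : Finset ℕ) : Prop :=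
  ∃ a d : ℕ, 1 ≤ a ∧ 1 ≤ d ∧ a + (k - 1) * d ≤ n ∧ S = (range k).image (fun i => a + i * d)

/-- The number `M_k(χ)` of `k`-term progressions in `{1, …, n}` on which `χ` is constant. Only the
values of `χ` on `{1, …, n}` matter. -/
noncomputable def monoCount (k n : ℕ) {r : ℕ} (χ : ℕ → Fin r) : ℕ :=
  {S : Finset ℕ | IsAP k n S ∧ ∃ c, ∀ x ∈ S, χ x = c}.ncard

/-- being monochromatic, for a pair -/
def Mono (k : ℕ) {r : ℕ} (χ : ℕ → Fin r) (p : ℕ × ℕ) : Prop :=
  ∃ c, ∀ i < k, χ (p.1 + i * p.2) = c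

open Classical in
/-- the pairs giving monochromatic progressions -/
noncomputable def MP (k n : ℕ) {r : ℕ} (χ : ℕ → Fin r) : Finset (ℕ × ℕ) :=
  (PP (k - 1) n).filter (Mono k χ)

lemma ap_inj {k : ℕ} (hk : 2 ≤ k) {a d a' d' : ℕ}
    (h : (range k).image (fun i => a + i * d) = (range k).image (fun i => a' + i * d')) :
    a = a' ∧ d = d' := by
  have mem : ∀ {a d x : ℕ}, x ∈ (range k).image (fun i => a + i * d) → a ≤ x ∧
      x ≤ a + (k - 1) * d := by
    intro a d x hx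
    obtain ⟨i, hi, rfl⟩ := mem_image.1 hx
    rw [mem_range] at hi
    have : i * d ≤ (k - 1) * d := Nat.mul_le_mul_right _ (by omega)
    omega
  have lo : ∀ {a d : ℕ}, a ∈ (range k).image (fun i => a + i * d) := by
    intro a d
    exact mem_image.2 ⟨0, mem_range.2 (by omega), by simp⟩
  have hi : ∀ {a d : ℕ}, a + (k - 1) * d ∈ (range k).image (fun i => a + i * d) := by
    intro a d
    exact mem_image.2 ⟨k - 1, mem_range.2 (by omega), rfl⟩
  have l1 := (mem (by rw [← h]; exact lo : a ∈ (range k).image (fun i => a' + i * d'))).1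
  have l2 := (mem (by rw [h]; exact lo : a' ∈ (range k).image (fun i => a + i * d))).1
  have h1 := (mem (by rw [← h]; exact hi :
    a + (k - 1) * d ∈ (range k).image (fun i => a' + i * d'))).2
  have h2 := (mem (by rw [h]; exact hi :
    a' + (k - 1) * d' ∈ (range k).image (fun i => a + i * d))).2
  have ha : a = a' := le_antisymm l2 l1
  subst ha
  refine ⟨rfl, ?_⟩
  have h3 : (k - 1) * d = (k - 1) * d' := by omega
  exact Nat.eq_of_mul_eq_mul_left (by omega) h3

lemma monoCount_eq {k : ℕ} (hk : 2 ≤ k) (n : ℕ) {r : ℕ} (χ : ℕ → Fin r) :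
    monoCount k n χ = (MP k n χ).card := by
  classical
  unfold monoCount
  have : {S : Finset ℕ | IsAP k n S ∧ ∃ c, ∀ x ∈ S, χ x = c} =
      (((MP k n χ).image (fun p => (range k).image (fun i => p.1 + i * p.2)) :
        Finset (Finset ℕ)) : Set (Finset ℕ)) := by
    ext S
    rw [mem_coe, mem_image]
    constructor
    · rintro ⟨⟨a, d, ha, hd, hn, rfl⟩, c, hc⟩
      refine ⟨(a, d), ?_, rfl⟩
      unfold MP
      rw [mem_filter, mem_PP (by omega)]
      refine ⟨⟨ha, hd, hn⟩, c, fun i hi => ?_⟩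
      exact hc _ (mem_image.2 ⟨i, mem_range.2 hi, rfl⟩)
    · rintro ⟨⟨a, d⟩, hp, rfl⟩
      unfold MP at hp
      rw [mem_filter, mem_PP (by omega)] at hp
      obtain ⟨⟨ha, hd, hn⟩, c, hc⟩ := hp
      refine ⟨⟨a, d, ha, hd, hn, rfl⟩, c, ?_⟩
      intro x hx
      obtain ⟨i, hi, rfl⟩ := mem_image.1 hx
      exact hc i (mem_range.1 hi)
  rw [this, Set.ncard_coe_finset, card_image_of_injOn]
  rintro ⟨a, d⟩ _ ⟨a', d'⟩ _ h
  obtain ⟨h1, h2⟩ := ap_inj hk h
  exact Prod.ext h1 h2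

/-- Changing the colour of one element changes the count by at most `k n`. -/
lemma change_one {k : ℕ} (hk : 2 ≤ k) (n : ℕ) {r : ℕ} (χ χ' : ℕ → Fin r) (t : ℕ)
    (h : ∀ x, x ≠ t → χ x = χ' x) : (MP k n χ').card ≤ (MP k n χ).card + k * n := by
  classical
  have hsub : MP k n χ' ⊆ MP k n χ ∪
      (range k).biUnion (fun i => (PP (k - 1) n).filter (fun p => p.1 + i * p.2 = t)) := by
    intro p hp
    unfold MP at hp ⊢
    rw [mem_filter] at hp
    rw [mem_union, mem_filter, mem_biUnion]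
    by_cases hex : ∃ i < k, p.1 + i * p.2 = t
    · right
      obtain ⟨i, hi, hit⟩ := hex
      exact ⟨i, mem_range.2 hi, mem_filter.2 ⟨hp.1, hit⟩⟩
    · left
      push Not at hex
      obtain ⟨h1, c, hc⟩ := hp
      exact ⟨h1, c, fun i hi => by rw [h _ (hex i hi)]; exact hc i hi⟩
  refine (card_le_card hsub).trans ((card_union_le _ _).trans ?_)
  refine Nat.add_le_add_left (card_biUnion_le.trans ?_) _
  calc ∑ i ∈ range k, ((PP (k - 1) n).filter (fun p => p.1 + i * p.2 = t)).card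
      ≤ ∑ i ∈ range k, n := by
        refine sum_le_sum fun i _ => ?_
        calc ((PP (k - 1) n).filter (fun p => p.1 + i * p.2 = t)).card ≤ (Icc 1 n).card := by
              refine card_le_card_of_injOn (fun p => p.2) ?_ ?_
              · intro p hp
                rw [mem_coe, mem_filter] at hp
                unfold PP at hp
                exact (mem_product.1 (mem_filter.1 hp.1).1).2
              · intro p hp q hq hpq
                rw [mem_coe, mem_filter] at hp hq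
                simp only at hpq
                refine Prod.ext ?_ hpq
                have e1 := hp.2
                have e2 := hq.2
                rw [hpq] at e1
                omega
          _ = n := by rw [Nat.card_Icc]; omega
    _ = k * n := by rw [sum_const, card_range, smul_eq_mul]

/-- the signs of the colours -/
def sg {r : ℕ} (c : Fin r) : ℝ := if c.1 = 0 then 1 else if c.1 = 1 then -1 else 0

lemma sum_sg {r : ℕ} (hr : 2 ≤ r) : ∑ c : Fin r, sg c = 0 := by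
  obtain ⟨m, rfl⟩ : ∃ m, r = m + 2 := ⟨r - 2, by omega⟩
  rw [Fin.sum_univ_succ, Fin.sum_univ_succ]
  have : ∑ i : Fin m, sg (i.succ.succ : Fin (m + 2)) = 0 := sum_eq_zero fun i _ => by simp [sg]
  rw [this]
  simp [sg]

lemma sum_sg_sq {r : ℕ} (hr : 2 ≤ r) : ∑ c : Fin r, (sg c) ^ 2 = 2 := by
  obtain ⟨m, rfl⟩ : ∃ m, r = m + 2 := ⟨r - 2, by omega⟩
  rw [Fin.sum_univ_succ, Fin.sum_univ_succ]
  have : ∑ i : Fin m, (sg (i.succ.succ : Fin (m + 2))) ^ 2 = 0 :=
    sum_eq_zero fun i _ => by simp [sg]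
  rw [this]
  simp [sg]; norm_num

lemma abs_sg_le {r : ℕ} (c : Fin r) : |sg c| ≤ 1 := by
  unfold sg
  split_ifs <;> simp

lemma abs_g_le (X l x : ℕ) : |((g X l x : ℤ) : ℝ)| ≤ 2 := by
  have : |g X l x| ≤ 2 := by
    unfold g ind
    split_ifs with h1 h2 h3 h2 h3 h2 h3 <;> simp only [mem_Ioc] at * <;> first | omega | norm_num
  exact_mod_cast this

set_option maxHeartbeats 2000000 in
/-- **Good colourings.** -/
lemma good {k r : ℕ} (hk : 3 ≤ k) (hr : 2 ≤ r) : ∃ δ : ℝ,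
    δ < 1 / (2 * ((k : ℝ) - 1) * (r : ℝ) ^ (k - 1)) ∧ ∃ n₀ : ℕ, ∀ n, n₀ ≤ n →
      ∃ χ : ℕ → Fin r, ((MP k n χ).card : ℝ) ≤ δ * (n : ℝ) ^ 2 := by
  classical
  obtain ⟨C, hC, hexp⟩ := prod_expand k
  have hr0 : (0 : ℝ) < r := by exact_mod_cast (by omega : 0 < r)
  have hr2 : (2 : ℝ) ≤ r := by exact_mod_cast hr
  have hk0 : (0 : ℝ) < k := by exact_mod_cast (by omega : 0 < k)
  have hk1 : (2 : ℝ) ≤ (k : ℝ) - 1 := by
    have : (3 : ℝ) ≤ k := by exact_mod_cast hk
    linarith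
  set c₁ : ℝ := 1 / (16 * k) with hc₁
  have hc₁0 : 0 < c₁ := by positivity
  set ε : ℝ := min (1 / (4 * r)) (c₁ ^ 2 / (8 * (C + 1) * r ^ 2)) with hε
  have hε0 : 0 < ε := lt_min (by positivity) (by positivity)
  have hε1 : ε ≤ 1 / (4 * r) := min_le_left _ _
  have hε2 : ε ≤ c₁ ^ 2 / (8 * (C + 1) * r ^ 2) := min_le_right _ _
  set ρ : ℝ := 1 / (2 * ((k : ℝ) - 1) * (r : ℝ) ^ (k - 1)) with hρ
  set θ : ℝ := (1 / (r : ℝ)) ^ k * (r ^ 2 * ε ^ 2 * c₁ ^ 2) with hθ
  have hθ0 : 0 < θ := by positivity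
  refine ⟨ρ - θ, by linarith, 16 * k * (k - 1).factorial, fun n hn => ?_⟩
  set L := (k - 1).factorial with hL
  have hL0 : 0 < L := Nat.factorial_pos _
  set l := L * (n / (8 * k * L)) with hl
  have hdvd : ∀ s, 1 ≤ s → s < k → s ∣ l := by
    intro s h1 h2
    exact (Nat.dvd_factorial h1 (by omega)).trans (Dvd.intro _ rfl)
  have hln : 8 * k * l ≤ n := by
    rw [hl]
    calc 8 * k * (L * (n / (8 * k * L))) = (8 * k * L) * (n / (8 * k * L)) := by ring
      _ ≤ n := Nat.mul_div_le _ _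
  have hl2 : c₁ * n ≤ l := by
    have h1 : n < 8 * k * L * (n / (8 * k * L)) + 8 * k * L := by
      have h8 : 0 < 8 * k * L := by positivity
      have h2 := Nat.mod_lt n h8
      have h3 := Nat.div_add_mod n (8 * k * L)
      omega
    have h2 : n < 8 * k * l + 8 * k * L := by
      have : 8 * k * l = 8 * k * L * (n / (8 * k * L)) := by rw [hl]; ring
      omega
    have h3 : (n : ℝ) < 8 * k * l + 8 * k * L := by exact_mod_cast h2
    have h4 : (16 * k * L : ℝ) ≤ n := by exact_mod_cast hn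
    have h5 : (n : ℝ) ≤ 16 * k * l := by linarith
    rw [hc₁, div_mul_eq_mul_div, one_mul, div_le_iff₀ (by positivity)]
    linarith
  set X := 4 * (k - 2) * l with hX
  -- weights
  let P : ℕ → Fin r → ℝ := fun x c => 1 / r + ε * (sg c * g X l x)
  have hPbound : ∀ x (c : Fin r), |ε * (sg c * (g X l x : ℝ))| ≤ 2 * ε := by
    intro x c
    rw [abs_mul, abs_mul, abs_of_pos hε0]
    have := mul_le_mul (abs_sg_le c) (abs_g_le X l x) (abs_nonneg _) zero_le_one
    nlinarith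
  have hP0 : ∀ x c, 0 ≤ P x c := by
    intro x c
    have h1 := hPbound x c
    have h2 := neg_abs_le (ε * (sg c * (g X l x : ℝ)))
    have h3 : 2 * ε ≤ 1 / r := by
      have : 1 / (4 * (r : ℝ)) = (1 / r) / 4 := by field_simp
      rw [this] at hε1
      have : 0 < 1 / (r : ℝ) := by positivity
      linarith
    show 0 ≤ 1 / (r : ℝ) + ε * (sg c * g X l x)
    linarith
  have hP1 : ∀ x, ∑ c, P x c = 1 := by
    intro x
    show ∑ c : Fin r, (1 / (r : ℝ) + ε * (sg c * g X l x)) = 1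
    rw [sum_add_distrib, ← mul_sum, ← sum_mul, sum_sg hr]
    rw [sum_const, card_univ, Fintype.card_fin, nsmul_eq_mul]
    field_simp
    simp
  -- the sets
  let S : ℕ × ℕ → Finset (Fin (n + 1)) := fun p =>
    univ.filter (fun x => ∃ i < k, x.1 = p.1 + i * p.2)
  have hle : ∀ p ∈ PP (k - 1) n, ∀ i < k, p.1 + i * p.2 < n + 1 := by
    intro p hp i hi
    rw [mem_PP (by omega)] at hp
    have : i * p.2 ≤ (k - 1) * p.2 := Nat.mul_le_mul_right _ (by omega)
    omega
  have hSne : ∀ p ∈ PP (k - 1) n, (S p).Nonempty := by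
    intro p hp
    exact ⟨⟨p.1 + 0 * p.2, hle p hp 0 (by omega)⟩, mem_filter.2 ⟨mem_univ _, 0, by omega, rfl⟩⟩
  have hSprod : ∀ p ∈ PP (k - 1) n, ∀ c : Fin r,
      ∏ x ∈ S p, P x.1 c = ∏ i ∈ range k, P (p.1 + i * p.2) c := by
    intro p hp c
    symm
    refine prod_bij (fun i hi => (⟨p.1 + i * p.2, hle p hp i (mem_range.1 hi)⟩ : Fin (n + 1)))
      ?_ ?_ ?_ ?_
    · intro i hi
      exact mem_filter.2 ⟨mem_univ _, i, mem_range.1 hi, rfl⟩
    · intro i hi j hj hij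
      simp only [Fin.mk.injEq] at hij
      have h1 : i * p.2 = j * p.2 := by omega
      rw [mem_PP (by omega)] at hp
      exact Nat.eq_of_mul_eq_mul_right (by omega) h1
    · intro x hx
      obtain ⟨_, i, hi, hxi⟩ := mem_filter.1 hx
      exact ⟨i, mem_range.2 hi, Fin.ext hxi.symm⟩
    · intro i hi
      rfl
  obtain ⟨φ, hφ⟩ := exists_coloring (n := n) (fun x c => P x.1 c) (fun x c => hP0 x.1 c)
    (fun x => hP1 x.1) (PP (k - 1) n) S hSne
  refine ⟨fun x => if h : x < n + 1 then φ ⟨x, h⟩ else φ 0, ?_⟩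
  have hMP : MP k n (fun x => if h : x < n + 1 then φ ⟨x, h⟩ else φ 0) =
      (PP (k - 1) n).filter (fun i => ∃ c, ∀ x ∈ S i, φ x = c) := by
    unfold MP
    refine filter_congr fun p hp => ?_
    constructor
    · rintro ⟨c, hc⟩
      refine ⟨c, fun x hx => ?_⟩
      obtain ⟨_, i, hi, hxi⟩ := mem_filter.1 hx
      have := hc i hi
      simp only [← hxi, dif_pos x.2] at this
      exact this
    · rintro ⟨c, hc⟩
      refine ⟨c, fun i hi => ?_⟩
      show (if h : p.1 + i * p.2 < n + 1 then φ ⟨p.1 + i * p.2, h⟩ else φ 0) = c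
      rw [dif_pos (hle p hp i hi)]
      exact hc _ (mem_filter.2 ⟨mem_univ _, i, hi, rfl⟩)
  rw [hMP]
  refine hφ.trans ?_
  have hstep1 : ∑ p ∈ PP (k - 1) n, ∑ c, ∏ x ∈ S p, P x.1 c =
      ∑ p ∈ PP (k - 1) n, ∑ c, ∏ i ∈ range k, P (p.1 + i * p.2) c :=
    sum_congr rfl fun p hp => sum_congr rfl fun c _ => hSprod p hp c
  rw [hstep1]
  -- expansion
  have hfac : ∀ (p : ℕ × ℕ) (c : Fin r), ∏ i ∈ range k, P (p.1 + i * p.2) c =
      (1 / (r : ℝ)) ^ k * ∏ i ∈ range k, (1 + r * ε * (sg c * g X l (p.1 + i * p.2))) := by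
    intro p c
    have : (1 / (r : ℝ)) ^ k = ∏ i ∈ range k, (1 / (r : ℝ)) := by rw [prod_const, card_range]
    rw [this, ← prod_mul_distrib]
    refine prod_congr rfl fun i _ => ?_
    show 1 / (r : ℝ) + ε * (sg c * g X l (p.1 + i * p.2)) = _
    field_simp
  set η : ℝ := 2 * r * ε with hη
  have hη0 : 0 ≤ η := by positivity
  have hη1 : η ≤ 1 := by
    have h4 : ε * (4 * r) ≤ 1 := (le_div_iff₀ (by positivity)).1 hε1
    rw [hη]; nlinarith
  have hbound : ∀ (p : ℕ × ℕ) (c : Fin r),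
      ∏ i ∈ range k, (1 + r * ε * (sg c * g X l (p.1 + i * p.2))) ≤
        1 + ∑ i ∈ range k, r * ε * (sg c * g X l (p.1 + i * p.2)) +
        ∑ j ∈ range k, ∑ i ∈ range j, (r * ε * (sg c * g X l (p.1 + i * p.2))) *
          (r * ε * (sg c * g X l (p.1 + j * p.2))) + C * η ^ 3 := by
    intro p c
    have := hexp η hη0 hη1 (fun i => r * ε * (sg c * g X l (p.1 + i * p.2))) (by
      intro i _
      have h1 := hPbound (p.1 + i * p.2) c
      have e : (r : ℝ) * ε * (sg c * g X l (p.1 + i * p.2)) =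
        r * (ε * (sg c * g X l (p.1 + i * p.2))) := by ring
      rw [e, abs_mul, abs_of_pos hr0, hη]
      nlinarith)
    have := (abs_le.1 this).2
    linarith
  have hpt : ∀ p : ℕ × ℕ, ∑ c : Fin r, ∏ i ∈ range k, P (p.1 + i * p.2) c ≤
      (1 / (r : ℝ)) ^ k * (r + 2 * (r * ε) ^ 2 * (∑ j ∈ range k, ∑ i ∈ range j,
        ((g X l (p.1 + i * p.2) * g X l (p.1 + j * p.2) : ℤ) : ℝ)) + r * (C * η ^ 3)) := by
    intro p
    rw [sum_congr rfl fun c _ => hfac p c, ← mul_sum]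
    refine mul_le_mul_of_nonneg_left ?_ (by positivity)
    refine (sum_le_sum fun c _ => hbound p c).trans (le_of_eq ?_)
    rw [sum_add_distrib, sum_add_distrib, sum_add_distrib]
    have e1 : ∑ c : Fin r, (1 : ℝ) = r := by simp
    have e2 : ∑ c : Fin r, ∑ i ∈ range k, r * ε * (sg c * g X l (p.1 + i * p.2)) = 0 := by
      rw [sum_comm]
      refine sum_eq_zero fun i _ => ?_
      rw [← mul_sum, ← sum_mul, sum_sg hr]; simp
    have e3 : ∑ c : Fin r, C * η ^ 3 = r * (C * η ^ 3) := by simp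
    have e4 : ∑ c : Fin r, ∑ j ∈ range k, ∑ i ∈ range j,
        (r * ε * (sg c * g X l (p.1 + i * p.2))) * (r * ε * (sg c * g X l (p.1 + j * p.2)))
        = 2 * (r * ε) ^ 2 * (∑ j ∈ range k, ∑ i ∈ range j,
        ((g X l (p.1 + i * p.2) * g X l (p.1 + j * p.2) : ℤ) : ℝ)) := by
      rw [← sum_sg_sq hr, sum_mul, sum_mul]
      refine sum_congr rfl fun c _ => ?_
      rw [mul_sum]
      refine sum_congr rfl fun j _ => ?_
      rw [mul_sum]
      refine sum_congr rfl fun i _ => ?_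
      push_cast
      ring
    rw [e1, e2, e3, e4]
    ring
  refine (sum_le_sum fun p _ => hpt p).trans ?_
  have hcorr := corr_neg hk hdvd hln
  rw [← hX] at hcorr
  have hcorrR : ∑ p ∈ PP (k - 1) n, ∑ j ∈ range k, ∑ i ∈ range j,
      ((g X l (p.1 + i * p.2) * g X l (p.1 + j * p.2) : ℤ) : ℝ) ≤ - (l : ℝ) ^ 2 := by
    have e : ∑ p ∈ PP (k - 1) n, ∑ j ∈ range k, ∑ i ∈ range j,
      ((g X l (p.1 + i * p.2) * g X l (p.1 + j * p.2) : ℤ) : ℝ) =
      ((∑ j ∈ range k, ∑ i ∈ range j, ∑ p ∈ PP (k - 1) n,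
      g X l (p.1 + i * p.2) * g X l (p.1 + j * p.2) : ℤ) : ℝ) := by
      push_cast
      rw [sum_comm]
      refine sum_congr rfl fun j _ => ?_
      rw [sum_comm]
    rw [e]
    exact_mod_cast hcorr
  rw [← mul_sum, sum_add_distrib, sum_add_distrib, ← mul_sum, sum_const, sum_const, nsmul_eq_mul,
    nsmul_eq_mul]
  generalize (∑ p ∈ PP (k - 1) n, ∑ j ∈ range k, ∑ i ∈ range j,
      ((g X l (p.1 + i * p.2) * g X l (p.1 + j * p.2) : ℤ) : ℝ)) = Q at hcorrR ⊢
  set N : ℝ := ((PP (k - 1) n).card : ℝ) with hN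
  have hNup : 2 * ((k : ℝ) - 1) * N ≤ (n : ℝ) ^ 2 := by
    have := card_PP_upper (k - 1) n
    have h2 : ((2 * (k - 1) * (PP (k - 1) n).card : ℕ) : ℝ) ≤ ((n ^ 2 : ℕ) : ℝ) := by
      exact_mod_cast this
    push_cast [Nat.cast_sub (by omega : 1 ≤ k)] at h2
    exact h2
  have hN0 : 0 ≤ N := Nat.cast_nonneg _
  have hN1 : N ≤ (n : ℝ) ^ 2 := by nlinarith
  have hl3 : (c₁ * n) ^ 2 ≤ (l : ℝ) ^ 2 := by
    have : 0 ≤ c₁ * n := by positivity
    exact pow_le_pow_left₀ this hl2 2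
  have hpk : (1 / (r : ℝ)) ^ k * r = 1 / (r : ℝ) ^ (k - 1) := by
    obtain ⟨m, rfl⟩ : ∃ m, k = m + 1 := ⟨k - 1, by omega⟩
    rw [Nat.add_sub_cancel, pow_succ]
    field_simp
    rw [div_pow, one_pow]
    field_simp
  have hmain : (1 / (r : ℝ)) ^ k * r * N ≤ ρ * (n : ℝ) ^ 2 := by
    rw [hpk, hρ]
    have h3 : N ≤ (n : ℝ) ^ 2 / (2 * ((k : ℝ) - 1)) := by
      rw [le_div_iff₀ (by positivity)]
      linarith
    calc 1 / (r : ℝ) ^ (k - 1) * N ≤ 1 / (r : ℝ) ^ (k - 1) * ((n : ℝ) ^ 2 / (2 * ((k : ℝ) - 1))) := by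
          gcongr
      _ = 1 / (2 * ((k : ℝ) - 1) * (r : ℝ) ^ (k - 1)) * (n : ℝ) ^ 2 := by
          field_simp
  have hε3 : ε * (8 * (C + 1) * r ^ 2) ≤ c₁ ^ 2 := (le_div_iff₀ (by positivity)).1 hε2
  have herr : r * (C * η ^ 3) ≤ (r * ε) ^ 2 * c₁ ^ 2 := by
    have e1 : (r : ℝ) * (C * η ^ 3) = (r * ε) ^ 2 * (ε * (8 * C * r ^ 2)) := by
      rw [hη]; ring
    rw [e1]
    refine mul_le_mul_of_nonneg_left ?_ (by positivity)
    have : ε * (8 * C * r ^ 2) ≤ ε * (8 * (C + 1) * r ^ 2) := by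
      have : 0 ≤ ε * (8 * r ^ 2) := by positivity
      nlinarith
    linarith
  have hrest : (1 / (r : ℝ)) ^ k * (2 * (r * ε) ^ 2 * Q
      + N * (r * (C * η ^ 3))) ≤ - θ * (n : ℝ) ^ 2 := by
    have h5 : 2 * (r * ε) ^ 2 * Q ≤ 2 * (r * ε) ^ 2 * (- (c₁ * n) ^ 2) :=
      mul_le_mul_of_nonneg_left (hcorrR.trans (by linarith)) (by positivity)
    have h6 : N * (r * (C * η ^ 3)) ≤ (n : ℝ) ^ 2 * ((r * ε) ^ 2 * c₁ ^ 2) :=
      mul_le_mul hN1 herr (by positivity) (by positivity)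
    have h7 : 2 * (r * ε) ^ 2 * (- (c₁ * n) ^ 2) + (n : ℝ) ^ 2 * ((r * ε) ^ 2 * c₁ ^ 2) =
      - (r ^ 2 * ε ^ 2 * c₁ ^ 2) * (n : ℝ) ^ 2 := by ring
    calc (1 / (r : ℝ)) ^ k * (2 * (r * ε) ^ 2 * Q + N * (r * (C * η ^ 3)))
        ≤ (1 / (r : ℝ)) ^ k * (- (r ^ 2 * ε ^ 2 * c₁ ^ 2) * (n : ℝ) ^ 2) := by
          refine mul_le_mul_of_nonneg_left ?_ (by positivity)
          linarith
      _ = - θ * (n : ℝ) ^ 2 := by rw [hθ]; ring
  have hfin : (1 / (r : ℝ)) ^ k * (N * r + 2 * (r * ε) ^ 2 * Q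
      + N * (r * (C * η ^ 3))) = (1 / (r : ℝ)) ^ k * r * N +
      (1 / (r : ℝ)) ^ k * (2 * (r * ε) ^ 2 * Q + N * (r * (C * η ^ 3))) := by ring
  rw [hfin]
  linarith

/-- **Main theorem.** For all `k ≥ 3` and `r ≥ 2` there are a constant `δ`, strictly smaller than the
random rate `1 / (2 (k-1) r^(k-1))`, and, for each `n`, an `r`-colouring `χ n` of `{1, …, n}` whose
number of monochromatic `k`-term progressions is `δ n² + O(n)`. -/
theorem result : ∀ k r : ℕ, 3 ≤ k → 2 ≤ r →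
    ∃ δ : ℝ, δ < 1 / (2 * ((k : ℝ) - 1) * (r : ℝ) ^ (k - 1)) ∧
      ∃ (χ : ℕ → ℕ → Fin r) (C : ℝ), ∀ n : ℕ,
        |(monoCount k n (χ n) : ℝ) - δ * (n : ℝ) ^ 2| ≤ C * n := by
  classical
  intro k r hk hr
  obtain ⟨δ, hδ, n₀, hgood⟩ := good hk hr
  have hr2 : (2 : ℝ) ≤ r := by exact_mod_cast hr
  have hk1 : (2 : ℝ) ≤ (k : ℝ) - 1 := by
    have : (3 : ℝ) ≤ k := by exact_mod_cast hk
    linarith
  have hk3 : (3 : ℝ) ≤ k := by linarith
  -- the random rate is at most the rate of a constant colouring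
  have hδ1 : δ ≤ 1 / (2 * ((k : ℝ) - 1)) := by
    refine hδ.le.trans ?_
    refine one_div_le_one_div_of_le (by positivity) ?_
    have : (1 : ℝ) ≤ (r : ℝ) ^ (k - 1) := one_le_pow₀ (by linarith)
    nlinarith
  set C : ℝ := max (k : ℝ) ((1 + |δ|) * n₀) with hC
  have key : ∀ n : ℕ, ∃ χ : ℕ → Fin r, |((MP k n χ).card : ℝ) - δ * (n : ℝ) ^ 2| ≤ C * n := by
    intro n
    have z : Fin r := ⟨0, by omega⟩
    rcases lt_or_ge n n₀ with hn | hn
    · refine ⟨fun _ => z, ?_⟩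
      have h1 : ((MP k n (fun _ => z)).card : ℝ) ≤ (n : ℝ) ^ 2 := by
        have h2 : (MP k n (fun _ => z)).card ≤ (PP (k - 1) n).card := card_filter_le _ _
        have h3 := card_PP_upper (k - 1) n
        have h4 : (PP (k - 1) n).card ≤ 2 * (k - 1) * (PP (k - 1) n).card :=
          Nat.le_mul_of_pos_left _ (by omega)
        exact_mod_cast h2.trans (h4.trans h3)
      have h5 : (0 : ℝ) ≤ ((MP k n (fun _ => z)).card : ℝ) := Nat.cast_nonneg _
      have hn' : (n : ℝ) ≤ n₀ := by exact_mod_cast hn.le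
      have hn0 : (0 : ℝ) ≤ n := Nat.cast_nonneg _
      calc |((MP k n (fun _ => z)).card : ℝ) - δ * (n : ℝ) ^ 2|
          ≤ |((MP k n (fun _ => z)).card : ℝ)| + |δ * (n : ℝ) ^ 2| := abs_sub _ _
        _ ≤ (n : ℝ) ^ 2 + |δ| * (n : ℝ) ^ 2 := by
            rw [abs_of_nonneg h5, abs_mul, abs_of_nonneg (sq_nonneg (n : ℝ))]
            linarith
        _ = (1 + |δ|) * n * n := by ring
        _ ≤ (1 + |δ|) * n₀ * n := by gcongr
        _ ≤ C * n := by gcongr; exact le_max_right _ _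
    · obtain ⟨χ₀, hχ₀⟩ := hgood n hn
      -- interpolate
      let χ : ℕ → ℕ → Fin r := fun t x => if x < t then z else χ₀ x
      have hchange : ∀ t, (MP k n (χ (t + 1))).card ≤ (MP k n (χ t)).card + k * n := by
        intro t
        refine change_one (by omega) n (χ t) (χ (t + 1)) t fun x hx => ?_
        show (if x < t then z else χ₀ x) = if x < t + 1 then z else χ₀ x
        by_cases h : x < t
        · rw [if_pos h, if_pos (by omega)]
        · rw [if_neg h, if_neg (by omega)]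
      have hend : (MP k n (χ (n + 1))).card = (PP (k - 1) n).card := by
        unfold MP
        congr 1
        rw [filter_eq_self]
        intro p hp
        refine ⟨z, fun i hi => ?_⟩
        show (if p.1 + i * p.2 < n + 1 then z else _) = z
        rw [if_pos]
        rw [mem_PP (by omega)] at hp
        have : i * p.2 ≤ (k - 1) * p.2 := Nat.mul_le_mul_right _ (by omega)
        omega
      have hendR : δ * (n : ℝ) ^ 2 - n ≤ ((MP k n (χ (n + 1))).card : ℝ) := by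
        rw [hend]
        have h1 := card_PP_lower (s := k - 1) (by omega) n
        have h2 : ((n ^ 2 : ℕ) : ℝ) ≤ ((2 * (k - 1) * (PP (k - 1) n).card
          + 2 * (k - 1) * n : ℕ) : ℝ) := by exact_mod_cast h1
        push_cast [Nat.cast_sub (by omega : 1 ≤ k)] at h2
        have h3 : δ * (n : ℝ) ^ 2 ≤ 1 / (2 * ((k : ℝ) - 1)) * (n : ℝ) ^ 2 := by gcongr
        have h4 : 1 / (2 * ((k : ℝ) - 1)) * (n : ℝ) ^ 2 ≤ ((PP (k - 1) n).card : ℝ) + n := by
          rw [one_div_mul_eq_div, div_le_iff₀ (by positivity)]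
          linarith
        linarith
      have hex : ∃ t, δ * (n : ℝ) ^ 2 - n ≤ ((MP k n (χ t)).card : ℝ) := ⟨n + 1, hendR⟩
      have hn0 : (0 : ℝ) ≤ n := Nat.cast_nonneg _
      have hCk : (k : ℝ) * n ≤ C * n := by gcongr; exact le_max_left _ _
      refine ⟨χ (Nat.find hex), ?_⟩
      have hlow := Nat.find_spec hex
      have hup : ((MP k n (χ (Nat.find hex))).card : ℝ) ≤ δ * (n : ℝ) ^ 2 + k * n := by
        rcases Nat.eq_zero_or_pos (Nat.find hex) with h0 | h0
        · have : χ (Nat.find hex) = χ₀ := by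
            rw [h0]; rfl
          rw [this]
          have : 0 ≤ (k : ℝ) * n := by positivity
          linarith
        · obtain ⟨t, ht⟩ : ∃ t, Nat.find hex = t + 1 := ⟨Nat.find hex - 1, by omega⟩
          have hmin := Nat.find_min hex (m := t) (by omega)
          push Not at hmin
          have h3 : ((MP k n (χ (t + 1))).card : ℝ) ≤ ((MP k n (χ t)).card : ℝ) + k * n := by
            exact_mod_cast hchange t
          rw [ht]
          linarith
      rw [abs_le]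
      have : (n : ℝ) ≤ k * n := by nlinarith
      constructor <;> linarith
  choose χ hχ using key
  refine ⟨δ, hδ, χ, C, fun n => ?_⟩
  rw [monoCount_eq (by omega)]
  exact hχ n

end Pool.Agent.Results.MP_6bff71_co.BeatRandom
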